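import Pool.Agent.H26.ES.Targets
import Pool.Agent.H63.LVP.LC

/-!
# Row LCP of est_modules: the number of the lonely stars over a line (helper8)
-/

set_option autoImplicit false

open Finset MeasureTheory

namespace Pool.Agent.H8.EST

open Pool.Agent.H24.CL Pool.Agent.H24.LV Pool.Agent.H26.ES
open Pool.Agent.H63.LVP (mem_H kr_H sub_H DS_erase DS_pos DS_div inj0 cp cp_phi cp_add cntA ncard_eq
  rTO')

theorem card_coset {k p : ℕ} (hp : 1 ≤ p) (F : Finset (X k))
    (h : ∀ a ∈ F, ∀ a' ∈ F, a - a' ∈ H k p 1) : F.card ≤ p ^ k := by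
  rcases F.eq_empty_or_nonempty with h0 | ⟨a₀, ha₀⟩
  · rw [h0, card_empty]
    exact Nat.zero_le _
  · have h2 : (HF k p 1).card = p ^ (1 * k) := (rTO' k p hp).2.2.1 1
    rw [one_mul] at h2
    rw [← h2]
    apply Finset.card_le_card_of_injOn (fun a => a - a₀)
    · intro a ha
      rw [Finset.mem_coe, (rTO' k p hp).2.1]
      exact h a ha a₀ ha₀
    · intro a _ a' _ he
      exact sub_left_injective he

theorem card_HF {k p : ℕ} (hp : 1 ≤ p) : (HF k p 1).card = p ^ k := by
  have h2 : (HF k p 1).card = p ^ (1 * k) := (rTO' k p hp).2.2.1 1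
  rwa [one_mul] at h2

/-- the crossing of the star at `z` with the `p`-line -/
def CrP {k : ℕ} (q : ℕ) (V : Set (X k)) (G : ℕ → Set (X k)) (c : X k) (p w z : ℕ) (a : X k) :
    Prop :=
  phi q z c ∈ V ∧ phi q ((w + p * z) % q) a ∈ G ((w + p * z) / q)

theorem star_iffP (hCO : L_CO) {k : ℕ} {S : Finset ℕ} {V : Set (X k)} {Gd : ℕ → ℕ → Set (X k)}
    {q : ℕ} (hq : q ∉ S) (hqp : q.Prime) (hS : ∀ p ∈ S, p.Prime) {b κ : X k} {y z : ℕ}
    (hy : y < DS S) (hκ : phi (DS S) y κ = 0) :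
    StarP (insert q S) V Gd (b + κ) (y + DS S * z) ↔
      phi (DS S) y b ∈ Gd q z ∧ phi q z (phi (DS S) y b) ∈ V ∧
        ∀ p ∈ S, phi q ((y / (DS S / p) + p * z) % q)
          (cp S y p b + cp S y p κ) ∈ Gd p ((y / (DS S / p) + p * z) / q) := by
  have hD : DS (insert q S) = q * DS S := by
    unfold DS
    exact Finset.prod_insert hq
  have hc : phi (DS S) y (b + κ) = phi (DS S) y b := by rw [map_add, hκ, add_zero]
  have h1 : phi (DS (insert q S)) (y + DS S * z) (b + κ) = phi q z (phi (DS S) y b) := by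
    rw [hD, ← hCO.1 k q (DS S) z y, hc]
  have h2 : phi (DS (insert q S) / q) ((y + DS S * z) % (DS (insert q S) / q)) (b + κ) =
      phi (DS S) y b := by
    rw [hD, Nat.mul_div_cancel_left _ hqp.pos, Nat.add_mul_mod_self_left, Nat.mod_eq_of_lt hy, hc]
  have h2' : (y + DS S * z) / (DS (insert q S) / q) = z := by
    rw [hD, Nat.mul_div_cancel_left _ hqp.pos, Nat.add_mul_div_left _ _ (DS_pos hS),
      Nat.div_eq_of_lt hy, zero_add]
  have h3 : ∀ p ∈ S, phi (DS (insert q S) / p) ((y + DS S * z) % (DS (insert q S) / p)) (b + κ) =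
      phi q ((y / (DS S / p) + p * z) % q) (cp S y p b + cp S y p κ) ∧
      (y + DS S * z) / (DS (insert q S) / p) = (y / (DS S / p) + p * z) / q := by
    intro p hp
    have hE := DS_div hS hp
    have hE2 := DS_erase hp
    have hEp : 0 < DS (S.erase p) := DS_pos fun p hp => hS p (Finset.mem_of_mem_erase hp)
    have e1 : DS (insert q S) / p = q * DS (S.erase p) := by
      rw [hD, ← hE2, show q * (p * DS (S.erase p)) = p * (q * DS (S.erase p)) by ring,
        Nat.mul_div_cancel_left _ (hS p hp).pos]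
    have e2 : y + DS S * z = y + DS (S.erase p) * (p * z) := by
      rw [← hE2]
      ring
    refine ⟨?_, ?_⟩
    · rw [← cp_add]
      unfold cp
      rw [e1, hE, hCO.1, e2, mul_comm q (DS (S.erase p)), Nat.mod_mul, Nat.add_mul_mod_self_left,
        Nat.add_mul_div_left _ _ hEp]
    · rw [e1, hE, e2, mul_comm q (DS (S.erase p)), ← Nat.div_div_eq_div_mul,
        Nat.add_mul_div_left _ _ hEp]
  unfold StarP
  rw [h1]
  constructor
  · rintro ⟨g1, g2⟩
    refine ⟨?_, g1, fun p hp => ?_⟩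
    · have := g2 q (Finset.mem_insert_self q S)
      rwa [h2, h2'] at this
    · rw [← (h3 p hp).1, ← (h3 p hp).2]
      exact g2 p (Finset.mem_insert_of_mem hp)
  · rintro ⟨g0, g1, g2⟩
    refine ⟨g1, fun p hp => ?_⟩
    rcases Finset.mem_insert.mp hp with rfl | hp
    · rw [h2, h2']
      exact g0
    · rw [(h3 p hp).1, (h3 p hp).2]
      exact g2 p hp

theorem uni_H (hCO : L_CO) {k p q w z : ℕ} (hp : 1 ≤ p) (hqp : q.Coprime p)
    {G : ℕ → Set (X k)} (hU : Uni k p G) (hw : w < p) (hz : z < q) {bb a a' : X k}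
    (hk : a ∈ Kr k p w) (hk' : a' ∈ Kr k p w)
    (h : phi q ((w + p * z) % q) (bb + a) ∈ G ((w + p * z) / q))
    (h' : phi q ((w + p * z) % q) (bb + a') ∈ G ((w + p * z) / q)) : a - a' ∈ H k p 1 := by
  have hv : (w + p * z) / q < p := by
    apply Nat.div_lt_of_lt_mul
    calc w + p * z < p + p * z := by omega
      _ = p * (z + 1) := by ring
      _ ≤ p * q := Nat.mul_le_mul_left _ hz
      _ = q * p := mul_comm _ _
  have key : ∀ e : X k, phi p ((w + p * z) / q) (phi q ((w + p * z) % q) e) =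
      phi q z (phi p w e) := by
    intro e
    rw [hCO.1, Nat.mod_add_div, hCO.1, mul_comm p q]
  have hz0 : ∀ e ∈ Kr k p w, phi p w (bb + e) = phi p w bb := by
    intro e he
    rw [map_add, ((hCO.2.2.2.1 k p w hp).2 e).mp he, add_zero]
  have h1 := hU _ hv _ h _ h' (by rw [key, key, hz0 a hk, hz0 a' hk'])
  have h2 : phi q ((w + p * z) % q) (bb + a) - phi q ((w + p * z) % q) (bb + a') =
      phi q ((w + p * z) % q) (a - a') := by
    rw [← map_sub]
    congr 1
    abel
  rw [h2] at h1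
  exact sub_H hCO hqp (sub_mem (kr_H hp hk) (kr_H hp hk')) h1

theorem cp_H (hCO : L_CO) {k : ℕ} {S : Finset ℕ} {y p : ℕ} (hp : p ∈ S)
    (hS : ∀ p ∈ S, p.Prime) {δ : X k} (h : δ ∈ H k (DS S) 1) : cp S y p δ ∈ H k p 1 := by
  rw [mem_H, pow_one] at h ⊢
  unfold cp
  rw [← map_nsmul]
  apply hCO.2.1
  rw [mem_H, pow_one, smul_smul, DS_div hS hp, mul_comm, DS_erase hp]
  exact h

theorem crt_H (hCO : L_CO) {k : ℕ} {S : Finset ℕ} {y : ℕ} (hS : ∀ p ∈ S, p.Prime) {δ : X k}
    (h0 : δ ∈ Kr k (DS S) y) (h : ∀ p ∈ S, cp S y p δ ∈ H k p 1) : δ ∈ H k (DS S) 1 := by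
  rw [mem_H, pow_one]
  apply inj0 hS
  · exact nsmul_mem (kr_H (DS_pos hS) h0) _
  · intro p hp
    have h5 : 0 < DS S / p := by
      rw [DS_div hS hp]
      exact DS_pos fun p hp => hS p (Finset.mem_of_mem_erase hp)
    apply kr_H h5 (x := y % (DS S / p))
    rw [(hCO.2.2.2.1 k (DS S / p) _ h5).2, map_nsmul]
    have h1 := mem_H.mp (h p hp)
    rw [pow_one] at h1
    unfold cp at h1
    have h2 : ∀ v : X k, DS S • v = DS (S.erase p) • p • v := by
      intro v
      rw [smul_smul, mul_comm, DS_erase hp]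
    rw [h2, h1, smul_zero]

theorem hd_add (hCO : L_CO) {k D : ℕ} (V : Set (X k)) (a : X k) {h : X k} (hh : h ∈ H k D 1) :
    hd D V (a + h) = hd D V a := by
  have h1 : pos D V (a + h) = pos D V a := by
    unfold pos
    ext x
    simp only [mem_filter, map_add, hCO.2.1 k D x h hh, add_zero]
  unfold hd
  rw [h1]

theorem phi_H {k p q w : ℕ} {h : X k} (hh : h ∈ H k p 1) : phi q w h ∈ H k p 1 := by
  rw [mem_H] at hh ⊢
  rw [← map_nsmul, hh, map_zero]

theorem sq_fin {r n : ℕ} {K K' Q : ℝ} (hK : 0 < K) (hK' : 0 < K') (hQ : 0 < Q)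
    (h : (r : ℝ) ^ 2 ≤ r * (K' * Q) + n * (K ^ 2 * Q ^ 2)) : (r : ℝ) ≤ (K' + n * K) * Q := by
  by_contra hc
  push Not at hc
  have hn : (0 : ℝ) ≤ n := Nat.cast_nonneg n
  have h1 : 0 ≤ n * K * Q := by positivity
  have h2 : 0 < K' * Q := by positivity
  have h3 : n * K * Q < r := by linarith
  have h4 : n * K * Q < r - K' * Q := by linarith
  have h5 : n * K * Q * (n * K * Q) < r * (r - K' * Q) := mul_lt_mul'' h3 h4 h1 h1
  have h6 : (n : ℝ) ≤ (n : ℝ) ^ 2 := by
    rcases Nat.eq_zero_or_pos n with h0 | h0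
    · rw [h0]
      simp
    · have : (1 : ℝ) ≤ n := by exact_mod_cast h0
      nlinarith
  have h7 : n * (K ^ 2 * Q ^ 2) ≤ (n : ℝ) ^ 2 * (K ^ 2 * Q ^ 2) :=
    mul_le_mul_of_nonneg_right h6 (by positivity)
  linarith

open Classical in
/-- the pairs of crossings in different classes -/
theorem pairs_le (hCO : L_CO) {k p q w : ℕ} (hp : 1 ≤ p) (hq0 : 0 < q) {V : Set (X k)}
    {G : ℕ → Set (X k)} (hI : ∀ y, Inv k p (G y)) {bb c : X k} (hc : phi p w bb = c)
    (Z : Finset ℕ) (hZ : Z ⊆ range q) (s : ℕ → X k) (hs : ∀ z ∈ Z, s z ∈ Kr k p w)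
    (hCr : ∀ z ∈ Z, CrP q V G c p w z (bb + s z)) :
    (p : ℝ) ^ (2 * k) * (((Z ×ˢ Z).filter (fun t => s t.1 - s t.2 ∉ H k p 1)).card : ℝ) ≤
      (q : ℝ) ^ 2 * difP p q V G bb w := by
  have hq : (0 : ℝ) < q := by exact_mod_cast hq0
  set A := Kr k p w with hA
  set R := range q with hR
  set M := ((A ×ˢ A) ×ˢ (R ×ˢ R)).filter (fun u => u.1.1 - u.1.2 ∉ H k p 1 ∧
    CrP q V G c p w u.2.1 (bb + u.1.1) ∧ CrP q V G c p w u.2.2 (bb + u.1.2)) with hM
  have hac : ∀ a ∈ A, (q : ℝ) * acP p q V G (bb + a) w =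
      ∑ z ∈ R, if CrP q V G c p w z (bb + a) then (1 : ℝ) else 0 := by
    intro a ha
    have h1 : phi p w (bb + a) = c := by
      rw [map_add, ((hCO.2.2.2.1 k p w hp).2 a).mp ha, add_zero, hc]
    unfold acP
    rw [h1, mul_div_cancel₀ _ hq.ne', card_filter, Nat.cast_sum]
    refine sum_congr rfl fun z _ => ?_
    unfold CrP
    split_ifs <;> simp
  have hMc : (M.card : ℝ) = (q : ℝ) ^ 2 * difP p q V G bb w := by
    rw [hM, card_filter, Nat.cast_sum, sum_product, sum_product]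
    unfold difP
    rw [mul_sum]
    refine sum_congr rfl fun a ha => ?_
    rw [mul_sum]
    refine sum_congr rfl fun a' ha' => ?_
    by_cases h : a - a' ∈ H k p 1
    · simp only [h, not_true_eq_false, false_and, if_false, Nat.cast_zero, sum_const_zero,
        if_true, mul_zero]
    · rw [if_neg h]
      have e1 : (q : ℝ) ^ 2 * (acP p q V G (bb + a) w * acP p q V G (bb + a') w) =
          (q * acP p q V G (bb + a) w) * (q * acP p q V G (bb + a') w) := by ring
      rw [e1, hac a ha, hac a' ha', sum_mul_sum, sum_product]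
      refine sum_congr rfl fun z _ => sum_congr rfl fun z' _ => ?_
      by_cases g1 : CrP q V G c p w z (bb + a)
      · by_cases g2 : CrP q V G c p w z' (bb + a')
        · simp [h, g1, g2]
        · simp [h, g1, g2]
      · simp [h, g1]
  rw [← hMc]
  have hsub : ∀ h ∈ HF k p 1, h ∈ H k p 1 := fun h hh => ((rTO' k p hp).2.1 1 h).mp hh
  have hinj : ((Z ×ˢ Z).filter (fun t => s t.1 - s t.2 ∉ H k p 1)).card *
      ((HF k p 1).card * (HF k p 1).card) ≤ M.card := by
    rw [← card_product, ← card_product]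
    apply Finset.card_le_card_of_injOn (fun u : (ℕ × ℕ) × (X k × X k) =>
      ((s u.1.1 + u.2.1, s u.1.2 + u.2.2), (u.1.1, u.1.2)))
    · rintro ⟨⟨z, z'⟩, ⟨h, h'⟩⟩ hu
      rw [Finset.mem_coe, mem_product, mem_filter, mem_product, mem_product] at hu
      obtain ⟨⟨⟨hz, hz'⟩, hne⟩, hh, hh'⟩ := hu
      have hk1 : ∀ z ∈ Z, ∀ h ∈ HF k p 1, s z + h ∈ A := by
        intro z hz h hh
        rw [hA, (hCO.2.2.2.1 k p w hp).2, map_add,
          ((hCO.2.2.2.1 k p w hp).2 _).mp (hs z hz), zero_add]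
        exact hCO.2.1 k p w h (hsub h hh)
      have hk2 : ∀ z ∈ Z, ∀ h ∈ HF k p 1, CrP q V G c p w z (bb + (s z + h)) := by
        intro z hz h hh
        refine ⟨(hCr z hz).1, ?_⟩
        rw [← add_assoc, map_add]
        exact hI _ _ (hCr z hz).2 _ (phi_H (hsub h hh))
      simp only at hz hz' hne hh hh'
      rw [Finset.mem_coe, hM, mem_filter, mem_product, mem_product, mem_product]
      refine ⟨⟨⟨hk1 z hz h hh, hk1 z' hz' h' hh'⟩, hZ hz, hZ hz'⟩, ?_, hk2 z hz h hh,
        hk2 z' hz' h' hh'⟩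
      intro hcon
      apply hne
      have e : s z - s z' = (s z + h - (s z' + h')) - h + h' := by abel
      rw [e]
      exact add_mem (sub_mem hcon (hsub h hh)) (hsub h' hh')
    · rintro ⟨⟨z, z'⟩, ⟨h, h'⟩⟩ _ ⟨⟨z1, z1'⟩, ⟨h1, h1'⟩⟩ _ he
      simp only [Prod.mk.injEq] at he
      obtain ⟨⟨e1, e2⟩, e3, e4⟩ := he
      subst e3
      subst e4
      rw [add_right_inj] at e1 e2
      rw [e1, e2]
  rw [card_HF hp] at hinj
  have h1 : (((Z ×ˢ Z).filter (fun t => s t.1 - s t.2 ∉ H k p 1)).card : ℝ) *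
      ((p : ℝ) ^ k * (p : ℝ) ^ k) ≤ (M.card : ℝ) := by exact_mod_cast hinj
  calc _ = (((Z ×ˢ Z).filter (fun t => s t.1 - s t.2 ∉ H k p 1)).card : ℝ) *
      ((p : ℝ) ^ k * (p : ℝ) ^ k) := by ring
    _ ≤ _ := h1

open Classical in
theorem pf_LCP (hCO : L_CO) (_hCT : L_CT) : T_LCP := by
  intro k S V Ge Gd P m τ Ω kap kap' q hq hd0 hkap _ hkap' b y hy
  have hS : ∀ p ∈ S, p.Prime := fun p hp => (hd0.pr p (mem_insert_of_mem hp)).1
  have hqp : q.Prime := (hd0.pr q (mem_insert_self q S)).1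
  have hq0 : (0 : ℝ) < q := by exact_mod_cast hqp.pos
  have hDp := DS_pos hS
  have hker : ∀ κ ∈ Kr k (DS S) y, phi (DS S) y κ = 0 := fun κ hκ =>
    ((hCO.2.2.2.1 k (DS S) y hDp).2 κ).mp hκ
  set c := phi (DS S) y b with hc
  let w : ℕ → ℕ := fun p => y / (DS S / p)
  let bb : ℕ → X k := fun p => cp S y p b
  have hcop : ∀ p ∈ S, q.Coprime p := fun p hp =>
    (Nat.coprime_primes hqp (hS p hp)).mpr (fun h => hq (h ▸ hp))
  have hw : ∀ p ∈ S, w p < p := by
    intro p hp
    apply Nat.div_lt_of_lt_mul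
    rw [DS_div hS hp, mul_comm, DS_erase hp]
    exact hy
  have hcpK : ∀ p ∈ S, ∀ κ ∈ Kr k (DS S) y, cp S y p κ ∈ Kr k p (w p) := by
    intro p hp κ hκ
    rw [(hCO.2.2.2.1 k p _ (hS p hp).one_le).2, cp_phi hCO hp]
    exact hker κ hκ
  have hB : ∀ p ∈ S, ∀ z < q, ((Kr k p (w p)).filter
      (fun a => CrP q V (Gd p) c p (w p) z (bb p + a))).card ≤ p ^ k := by
    intro p hp z hz
    apply card_coset (hS p hp).one_le
    intro a ha a' ha'
    rw [mem_filter] at ha ha'
    exact uni_H hCO (hS p hp).one_le (hcop p hp) (hd0.uni p (mem_insert_of_mem hp)) (hw p hp) hz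
      ha.1 ha'.1 ha.2.2 ha'.2.2
  have hstar : ∀ κ ∈ Kr k (DS S) y, ∀ z, StarP (insert q S) V Gd (b + κ) (y + DS S * z) →
      ∀ p ∈ S, CrP q V (Gd p) c p (w p) z (bb p + cp S y p κ) := by
    intro κ hκ z h p hp
    have := (star_iffP hCO hq hqp hS hy (hker κ hκ)).mp h
    exact ⟨this.2.1, this.2.2 p hp⟩
  have hcard : ∀ z ∈ range q, ((Kr k (DS S) y).filter
      (fun κ => StarP (insert q S) V Gd (b + κ) (y + DS S * z))).card ≤ DS S ^ k := by
    intro z hz
    calc ((Kr k (DS S) y).filter (fun κ => StarP (insert q S) V Gd (b + κ)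
          (y + DS S * z))).card ≤ ∏ p ∈ S, ((Kr k p (w p)).filter
            (fun a => CrP q V (Gd p) c p (w p) z (bb p + a))).card := by
          refine le_trans (card_le_card ?_)
            (cntA hCO hS y (fun p a => CrP q V (Gd p) c p (w p) z (bb p + a)))
          intro κ hκ
          rw [mem_filter] at hκ ⊢
          exact ⟨hκ.1, hstar κ hκ.1 z hκ.2⟩
      _ ≤ ∏ p ∈ S, p ^ k := Finset.prod_le_prod' fun p hp => hB p hp z (mem_range.mp hz)
      _ = DS S ^ k := by
          rw [Finset.prod_pow]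
          rfl
  refine ⟨?_, ?_⟩
  · have h1 : ∀ z ∈ range q, ((Nat.card {κ : Kr k (DS S) y // StarP (insert q S) V Gd (b + κ.1)
        (y + DS S * z)} : ℕ) : ℝ) ≤ (DS S : ℝ) ^ k := by
      intro z hz
      rw [ncard_eq (Kr k (DS S) y) (fun κ => StarP (insert q S) V Gd (b + κ) (y + DS S * z))]
      exact_mod_cast hcard z hz
    calc _ ≤ ∑ z ∈ range q, (DS S : ℝ) ^ k := sum_le_sum h1
      _ = _ := by
        rw [sum_const, card_range, nsmul_eq_mul]
        ring
  · intro hbad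
    set LZ : ℕ → Finset (X k) := fun z => (Kr k (DS S) y).filter
      (fun κ => LonelyP S q V Gd kap' (b + κ) (y + DS S * z)) with hLZ
    set Z := (range q).filter (fun z => (LZ z).Nonempty) with hZ
    have hZq : Z ⊆ range q := filter_subset _ _
    have h1 : ∑ z ∈ range q, ((Nat.card {κ : Kr k (DS S) y // LonelyP S q V Gd kap' (b + κ.1)
        (y + DS S * z)} : ℕ) : ℝ) ≤ (Z.card : ℝ) * (DS S : ℝ) ^ k := by
      have h2 : ∀ z ∈ range q, ((Nat.card {κ : Kr k (DS S) y // LonelyP S q V Gd kap' (b + κ.1)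
          (y + DS S * z)} : ℕ) : ℝ) ≤ if (LZ z).Nonempty then (DS S : ℝ) ^ k else 0 := by
        intro z hz
        rw [ncard_eq (Kr k (DS S) y) (fun κ => LonelyP S q V Gd kap' (b + κ) (y + DS S * z))]
        by_cases hn : (LZ z).Nonempty
        · rw [if_pos hn]
          have h3 : ((Kr k (DS S) y).filter (fun κ => LonelyP S q V Gd kap' (b + κ)
              (y + DS S * z))).card ≤ DS S ^ k := by
            refine le_trans (card_le_card ?_) (hcard z hz)
            intro κ hκ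
            rw [mem_filter] at hκ ⊢
            exact ⟨hκ.1, hκ.2.1⟩
          exact_mod_cast h3
        · rw [if_neg hn]
          rw [not_nonempty_iff_eq_empty] at hn
          have h3 : (Kr k (DS S) y).filter (fun κ => LonelyP S q V Gd kap' (b + κ)
              (y + DS S * z)) = ∅ := hn
          rw [h3, card_empty, Nat.cast_zero]
      refine (sum_le_sum h2).trans (le_of_eq ?_)
      rw [← sum_filter, sum_const, nsmul_eq_mul]
    have hex : ∀ z, ∃ κ, z ∈ Z → κ ∈ LZ z := by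
      intro z
      by_cases hz : z ∈ Z
      · obtain ⟨κ, hκ⟩ := (mem_filter.mp hz).2
        exact ⟨κ, fun _ => hκ⟩
      · exact ⟨0, fun h => absurd h hz⟩
    choose s hs using hex
    have hsK : ∀ z ∈ Z, s z ∈ Kr k (DS S) y := fun z hz => (mem_filter.mp (hs z hz)).1
    have hsL : ∀ z ∈ Z, LonelyP S q V Gd kap' (b + s z) (y + DS S * z) := fun z hz =>
      (mem_filter.mp (hs z hz)).2
    -- one class
    have hcl : ∀ z₁ ∈ Z, ((Z.filter (fun z => s z - s z₁ ∈ H k (DS S) 1)).card : ℝ) ≤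
        kap' * q := by
      intro z₁ hz₁
      have hne : (Z.filter (fun z => s z - s z₁ ∈ H k (DS S) 1)).Nonempty :=
        ⟨z₁, mem_filter.mpr ⟨hz₁, by rw [sub_self]; exact zero_mem _⟩⟩
      obtain ⟨z₀, hz₀, hmin⟩ := Finset.exists_min_image _
        (fun z => hd (DS S) V (phi q ((y + DS S * z) % q) (b + s z))) hne
      have hz₀' := mem_filter.mp hz₀
      have h2 := (hsL z₀ hz₀'.1).2
      have hm : (y + DS S * z₀) % DS S = y := by
        rw [Nat.add_mul_mod_self_left, Nat.mod_eq_of_lt hy]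
      rw [hm] at h2
      refine le_trans ?_ h2.le
      refine Nat.cast_le.mpr (Finset.card_le_card ?_)
      intro z hz
      have hz' := mem_filter.mp hz
      have hδ : s z₀ - s z ∈ H k (DS S) 1 := by
        have e : s z₀ - s z = (s z₀ - s z₁) - (s z - s z₁) := by abel
        rw [e]
        exact sub_mem hz₀'.2 hz'.2
      have es : s z₀ = s z + (s z₀ - s z) := by abel
      refine mem_filter.mpr ⟨hZq hz'.1, ?_, ?_⟩
      · have h3 := (star_iffP hCO hq hqp hS hy (hker _ (hsK z hz'.1))).mp (hsL z hz'.1).1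
        rw [star_iffP hCO hq hqp hS hy (hker _ (hsK z₀ hz₀'.1))]
        refine ⟨h3.1, h3.2.1, fun p hp => ?_⟩
        have h4 := h3.2.2 p hp
        have h5 := hd0.inv p (mem_insert_of_mem hp) _ _ h4
          (phi q ((y / (DS S / p) + p * z) % q) (cp S y p (s z₀ - s z)))
          (phi_H (cp_H hCO hp hS hδ))
        rw [← map_add, add_assoc, ← cp_add, ← es] at h5
        exact h5
      · have h6 : hd (DS S) V (phi q ((y + DS S * z) % q) (b + s z₀)) =
            hd (DS S) V (phi q ((y + DS S * z) % q) (b + s z)) := by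
          rw [es, ← add_assoc, map_add]
          exact hd_add hCO V _ (phi_H hδ)
        rw [h6]
        exact hmin z hz
    -- different classes
    have hdf : ∀ p ∈ S, (((Z ×ˢ Z).filter (fun t => cp S y p (s t.1) - cp S y p (s t.2) ∉
        H k p 1)).card : ℝ) ≤ kap ^ 2 * (q : ℝ) ^ 2 := by
      intro p hp
      have hp0 : (0 : ℝ) < p := by exact_mod_cast (hS p hp).pos
      have h2 := pairs_le hCO (hS p hp).one_le hqp.pos (V := V)
        (fun v => hd0.inv p (mem_insert_of_mem hp) v) (bb := bb p) (c := c) (w := w p)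
        (cp_phi hCO hp b) Z hZq (fun z => cp S y p (s z)) (fun z hz => hcpK p hp _ (hsK z hz))
        (fun z hz => hstar _ (hsK z hz) z (hsL z hz).1 p hp)
      have h3 : difP p q V (Gd p) (bb p) (w p) ≤ kap ^ 2 * (p : ℝ) ^ (2 * k) :=
        (not_le.mp (hbad p hp)).le
      have h4 : (0 : ℝ) < (p : ℝ) ^ (2 * k) := pow_pos hp0 _
      have h5 := h2.trans (mul_le_mul_of_nonneg_left h3 (by positivity : (0 : ℝ) ≤ (q : ℝ) ^ 2))
      refine le_of_mul_le_mul_left ?_ h4
      calc _ ≤ (q : ℝ) ^ 2 * (kap ^ 2 * (p : ℝ) ^ (2 * k)) := h5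
        _ = _ := by ring
    -- all pairs
    have hall : (Z.card : ℝ) ^ 2 ≤ Z.card * (kap' * q) + S.card * (kap ^ 2 * (q : ℝ) ^ 2) := by
      have h2 : (Z ×ˢ Z) ⊆ (Z ×ˢ Z).filter (fun t => s t.2 - s t.1 ∈ H k (DS S) 1) ∪
          S.biUnion (fun p => (Z ×ˢ Z).filter (fun t => cp S y p (s t.1) - cp S y p (s t.2) ∉
            H k p 1)) := by
        intro t ht
        rw [mem_union, mem_biUnion]
        by_cases h : ∃ p ∈ S, cp S y p (s t.1) - cp S y p (s t.2) ∉ H k p 1
        · right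
          obtain ⟨p, hp, h⟩ := h
          exact ⟨p, hp, mem_filter.mpr ⟨ht, h⟩⟩
        · left
          push Not at h
          refine mem_filter.mpr ⟨ht, ?_⟩
          have ht' := mem_product.mp ht
          apply crt_H hCO hS (y := y)
          · rw [(hCO.2.2.2.1 k (DS S) y hDp).2, map_sub, hker _ (hsK _ ht'.1),
              hker _ (hsK _ ht'.2), sub_zero]
          · intro p hp
            have h3 := neg_mem (h p hp)
            rw [neg_sub] at h3
            unfold cp at h3 ⊢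
            rw [map_sub]
            exact h3
      have h3 := (card_le_card h2).trans ((card_union_le _ _).trans
        (Nat.add_le_add_left card_biUnion_le _))
      have h4 : (((Z ×ˢ Z).filter (fun t => s t.2 - s t.1 ∈ H k (DS S) 1)).card : ℝ) ≤
          Z.card * (kap' * q) := by
        have h5 : ((Z ×ˢ Z).filter (fun t => s t.2 - s t.1 ∈ H k (DS S) 1)).card =
            ∑ z₁ ∈ Z, (Z.filter (fun z => s z - s z₁ ∈ H k (DS S) 1)).card := by
          simp only [card_filter, sum_product]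
        rw [h5, Nat.cast_sum]
        calc _ ≤ ∑ z₁ ∈ Z, kap' * q := sum_le_sum hcl
          _ = _ := by rw [sum_const, nsmul_eq_mul]
      have h6 : ((∑ p ∈ S, ((Z ×ˢ Z).filter (fun t => cp S y p (s t.1) - cp S y p (s t.2) ∉
            H k p 1)).card : ℕ) : ℝ) ≤ S.card * (kap ^ 2 * (q : ℝ) ^ 2) := by
        rw [Nat.cast_sum]
        calc _ ≤ ∑ p ∈ S, kap ^ 2 * (q : ℝ) ^ 2 := sum_le_sum hdf
          _ = _ := by rw [sum_const, nsmul_eq_mul]
      have h7 : ((Z ×ˢ Z).card : ℝ) ≤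
          (((Z ×ˢ Z).filter (fun t => s t.2 - s t.1 ∈ H k (DS S) 1)).card : ℝ) +
          ((∑ p ∈ S, ((Z ×ˢ Z).filter (fun t => cp S y p (s t.1) - cp S y p (s t.2) ∉
            H k p 1)).card : ℕ) : ℝ) := by exact_mod_cast h3
      rw [card_product, Nat.cast_mul] at h7
      calc (Z.card : ℝ) ^ 2 = (Z.card : ℝ) * Z.card := by ring
        _ ≤ _ := h7
        _ ≤ _ := add_le_add h4 h6
    have hr := sq_fin hkap hkap' hq0 hall
    calc _ ≤ (Z.card : ℝ) * (DS S : ℝ) ^ k := h1
      _ ≤ (kap' + S.card * kap) * q * (DS S : ℝ) ^ k :=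
          mul_le_mul_of_nonneg_right hr (by positivity)
      _ = _ := by ring

end Pool.Agent.H8.EST
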